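import Mathlib
import Pool.Agent.P.MP_51e3d2_lc.Defs
import Pool.Agent.P.MP_51e3d2_lc.Main

set_option autoImplicit false

namespace Pool.Agent.Results.MP_51e3d2_lc.Decidable

open Pool.Agent.P.MP_51e3d2_lc

theorem result :
    ∃ f : ℕ × List (List ℕ) × List (List ℕ) × List (List ℕ) × ℕ × ℕ → Bool, Computable f ∧
      ∀ (A : Type) [HeytingAlgebra A] (n : ℕ) (e : Fin n ≃ A),
        f (n, opTable e (fun a b => a ⊓ b), opTable e (fun a b => a ⊔ b),
            opTable e (fun a b => a ⇨ b), (e.symm ⊥).val, (e.symm ⊤).val) = true ↔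
          Primitive (QuasiGen (ofHeyting A)) :=
  Pool.Agent.P.MP_51e3d2_lc.main

end Pool.Agent.Results.MP_51e3d2_lc.Decidable
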