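import Mathlib
import Pool.Agent.P.MP_51e3d2_lc.Irr

set_option autoImplicit false

namespace Pool.Agent.Results.MP_51e3d2_lc.Irreducible

open Pool.Agent.P.MP_51e3d2_lc

/-- Finite Heyting algebras whose top is join-irreducible (the subdirectly irreducible ones):
`Q(A)` is primitive iff the poset of join-irreducible elements has the shape. -/
theorem result (A : Type) [HeytingAlgebra A] [Finite A] (h : SupIrred (⊤ : A)) :
    Primitive (QuasiGen (ofHeyting A)) ↔ Shape {a : A // SupIrred a} :=
  (irreducible_case h).1

end Pool.Agent.Results.MP_51e3d2_lc.Irreducible
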