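import Mathlib
import Pool.Agent.P.MP_51e3d2_lc.Sq

set_option autoImplicit false

namespace Pool.Agent.Results.MP_51e3d2_lc.SquareCriterion

open Pool.Agent.P.MP_51e3d2_lc

/-- `Q(A)` is primitive iff the first projection of each subalgebra `B` of `A × A` is in `Q(B)`. -/
theorem result (A : Type) [HeytingAlgebra A] [Finite A] :
    Primitive (QuasiGen (ofHeyting A)) ↔
      ∀ (S : Set (ofHeyting A).sq.carrier) (h : Closed (ofHeyting A).sq S)
        (h' : Closed (ofHeyting A) (Prod.fst '' S)),
        (ofHeyting A).sub (Prod.fst '' S) h' ∈ QuasiGen ((ofHeyting A).sq.sub S h) := by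
  have : Finite (ofHeyting A).carrier := inferInstanceAs (Finite A)
  exact primitive_iff_sq

end Pool.Agent.Results.MP_51e3d2_lc.SquareCriterion
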